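import Mathlib

set_option autoImplicit false

namespace Pool.Agent.MP_57a8b6_nt.Old.InfinitelyMany

/-- Solutions of `t^2 + 22 = 23 s^2` with `s^2 = 601` modulo `2875` are unbounded. -/
theorem pell_step (N : ℕ) : ∃ s t k : ℤ, 0 < s ∧ 0 < t ∧ (N : ℤ) < k ∧
    s ^ 2 = 601 + 2875 * k ∧ t ^ 2 + 22 = 23 * s ^ 2 := by
  have hns : ¬ IsSquare (23 * 2875 ^ 2 : ℤ) := by
    rintro ⟨m, hm⟩
    have h1 : m * m = 190109375 := by rw [← hm]; norm_num
    have h2 : |m| * |m| = 190109375 := by rw [abs_mul_abs_self]; exact h1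
    have h0 := abs_nonneg m
    have h3 : |m| ≤ 13787 ∨ 13789 ≤ |m| ∨ |m| = 13788 := by omega
    rcases h3 with h | h | h
    · nlinarith
    · nlinarith
    · rw [h] at h2; norm_num at h2
  obtain ⟨u, w, huw, hw⟩ := Pell.exists_of_not_isSquare (d := 23 * 2875 ^ 2) (by norm_num) hns
  have hw1 : 1 ≤ |w| := Int.one_le_abs hw
  have hu2 : |u| ^ 2 = 1 + 23 * 2875 ^ 2 * |w| ^ 2 := by rw [sq_abs, sq_abs]; linarith
  have hu1 : 1 ≤ |u| := by
    have h0 := abs_nonneg u
    by_contra h
    have : |u| = 0 := by omega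
    rw [this] at hu2
    nlinarith
  generalize |u| = U at hu2 hu1
  generalize |w| = W at hu2 hw1
  induction N with
  | zero =>
    exact ⟨9931414749943516928215699, 47629391928872028421837349,
      34307130064485443087135776973119544521652824368, by norm_num, by norm_num, by norm_num,
      by norm_num, by norm_num⟩
  | succ n ih =>
    obtain ⟨s, t, k, hs, ht, hk, h1, h2⟩ := ih
    have hWt : 0 < W * t := by positivity
    have hUs : 0 < U * s := by positivity
    have hWs : 0 < W * s := by positivity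
    have hUt : 0 < U * t := by positivity
    refine ⟨2875 * (W * t) + U * s, U * t + 23 * 2875 * (W * s),
      k + 2875 * (W * t) ^ 2 + 2 * (W * t) * (U * s) + 23 * 2875 * (W * s) ^ 2,
      by positivity, by positivity, ?_, ?_, ?_⟩
    · push_cast
      have : 0 < (W * t) * (U * s) := by positivity
      have h3 : 0 ≤ (W * t) ^ 2 := by positivity
      have h4 : 0 ≤ (W * s) ^ 2 := by positivity
      nlinarith
    · linear_combination h1 + s ^ 2 * hu2
    · linear_combination h2 + (t ^ 2 - 23 * s ^ 2) * hu2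

/-- Infinitely many Diophantine triples whose curve has a positive integer point other than
`d₊` and `d₋`. -/
theorem result (N : ℤ) : ∃ a b c r s t x y : ℤ,
    0 < a ∧ a < b ∧ b < c ∧ N < c ∧ 0 < r ∧ 0 < s ∧ 0 < t ∧
    a * b + 1 = r ^ 2 ∧ a * c + 1 = s ^ 2 ∧ b * c + 1 = t ^ 2 ∧
    y ^ 2 = (a * x + 1) * (b * x + 1) * (c * x + 1) ∧ 0 < x ∧
    x ≠ a + b + c + 2 * a * b * c + 2 * r * s * t ∧
    x ≠ a + b + c + 2 * a * b * c - 2 * r * s * t := by
  obtain ⟨s, t, k, hs, ht, hk, h1, h2⟩ := pell_step N.toNat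
  have hN : N ≤ (N.toNat : ℤ) := Int.self_le_toNat N
  have hk0 : 0 < k := lt_of_le_of_lt (Int.natCast_nonneg _) hk
  have hst : 0 < s * t := by positivity
  refine ⟨5, 115, 120 + 575 * k, 24, s, t, k, (5 * k + 1) * (115 * k + 1), by norm_num,
    by norm_num, by omega, by omega, by norm_num, hs, ht, by norm_num, by linarith, by linarith,
    by ring, hk0, ?_, ?_⟩
  · intro h
    nlinarith
  · intro h
    have h3 : 48 * (s * t) = 138240 + 661824 * k := by linarith
    have h4 : (48 * (s * t)) ^ 2 = 2304 * (601 + 2875 * k) * (23 * (601 + 2875 * k) - 22) := by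
      rw [← h1, ← h2]; ring
    rw [h3] at h4
    nlinarith

end Pool.Agent.MP_57a8b6_nt.Old.InfinitelyMany
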